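import Mathlib
import Pool.Agent.T6.H88.GP.Transfer

/-!
# Delocalization of the optimizers of the `ℓ_p`-Grothendieck problem, `2 < p < ∞`

For a GOE matrix `G` of size `n`, with probability tending to one, uniformly over all probability
spaces carrying such a matrix, every optimizer `x` of `max {⟨Gx, x⟩ : ‖x‖_p ≤ 1}` satisfies
`‖x‖_∞ ≤ K (log n)^C n^(-1/p)`; one can take `C = 2 / (p - 2)`.

The proof compares the value `λ` of the maximum with the maximum of the form in which one
coordinate is removed and a linear term is added (the removed row): the first order condition for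
the removed coordinate and Gaussian concentration give
`2 λ M^p ≤ W + s t n^(1/2 - 1/p) + 3 s M^2`, `M = |x_i|`, where `W` is the mean excess of the
maximum when an independent Gaussian linear term of size `t` is added. The mean of `W` is
controlled by adding `k` coordinates equal to `n^(-1/p)` and by the growth of the mean of the
maximum in the dimension.
-/

set_option autoImplicit false

namespace Pool.Agent.Results.MP_98bed0_pr.Delocalization

open MeasureTheory ProbabilityTheory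
open scoped NNReal

/-- The `ℓ_p` norm on `ℝ^n`. -/
noncomputable def lpNorm (p : ℝ) {n : ℕ} (x : Fin n → ℝ) : ℝ := (∑ i, |x i| ^ p) ^ (1 / p)

/-- `x` is an optimizer of `⟨Gx, x⟩` over the unit ball of `ℓ_p`. -/
def IsOptimizer (p : ℝ) {n : ℕ} (G : Matrix (Fin n) (Fin n) ℝ) (x : Fin n → ℝ) : Prop :=
  lpNorm p x ≤ 1 ∧ ∀ y : Fin n → ℝ, lpNorm p y ≤ 1 →
    (G.mulVec y) ⬝ᵥ y ≤ (G.mulVec x) ⬝ᵥ x

/-- The random matrix `G` on `(Ω, μ)` is from the Gaussian orthogonal ensemble: it is symmetric,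
its entries `G i j` with `i ≤ j` are independent, and they are centred Gaussians, of variance
`2 / n` on the diagonal and `1 / n` off the diagonal. -/
structure IsGOE {Ω : Type*} [MeasurableSpace Ω] (μ : Measure Ω) (n : ℕ)
    (G : Ω → Matrix (Fin n) (Fin n) ℝ) : Prop where
  symm : ∀ ω i j, G ω i j = G ω j i
  indep : iIndepFun (fun (q : {q : Fin n × Fin n // q.1 ≤ q.2}) (ω : Ω) => G ω q.1.1 q.1.2) μ
  law : ∀ i j : Fin n, i ≤ j →
    μ.map (fun ω => G ω i j) = gaussianReal 0 (if i = j then 2 / (n : ℝ≥0) else 1 / (n : ℝ≥0))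

open Pool.Agent.T6.H88.GP in
theorem ball_iff {p : ℝ} (hp : 0 < p) {n : ℕ} (x : Fin n → ℝ) :
    lpNorm p x ≤ 1 ↔ x ∈ BB p (Fin n) := by
  have h0 : 0 ≤ ∑ i, |x i| ^ p :=
    Finset.sum_nonneg fun _ _ => Real.rpow_nonneg (abs_nonneg _) _
  constructor
  · intro h
    show ∑ i, |x i| ^ p ≤ 1
    have h1 : (∑ i, |x i| ^ p) = (lpNorm p x) ^ p := by
      unfold lpNorm
      rw [← Real.rpow_mul h0, one_div_mul_cancel hp.ne', Real.rpow_one]
    rw [h1]
    exact Real.rpow_le_one (Real.rpow_nonneg h0 _) h hp.le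
  · intro h
    exact Real.rpow_le_one h0 h (by positivity)

open Pool.Agent.T6.H88.GP in
theorem form_eq {n : ℕ} {G : Matrix (Fin n) (Fin n) ℝ} (hG : ∀ i j, G i j = G j i)
    (x : Fin n → ℝ) :
    Q (SymM (fun q : Tri n => G q.1.1 q.1.2)) x = (G.mulVec x) ⬝ᵥ x := by
  have h1 : ∀ q : Fin n × Fin n, SymM (fun q : Tri n => G q.1.1 q.1.2) q = G q.1 q.2 := by
    intro q
    unfold SymM
    split_ifs with h
    · rfl
    · exact hG _ _
  unfold Q
  simp only [h1, dotProduct, Matrix.mulVec, Finset.sum_mul]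
  rw [Fintype.sum_prod_type]
  apply Finset.sum_congr rfl
  intro a _
  apply Finset.sum_congr rfl
  intro b _
  ring

open Pool.Agent.T6.H88.GP in
/-- **Delocalization of optimizers.** For every `p > 2` there are constants `C > 0` and `K` such
that for every `ε > 0` there is `N` with the following property: for every `n ≥ N` and every
GOE matrix of size `n` on a probability space, the probability that some optimizer `x` of the
`ℓ_p`-Grothendieck problem violates `‖x‖_∞ ≤ K (log n)^C n^(-1/p)` is at most `ε`. -/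
theorem result (p : ℝ) (hp : 2 < p) : ∃ C K : ℝ, 0 < C ∧ ∀ ε : ℝ, 0 < ε → ∃ N : ℕ, ∀ n : ℕ,
    N ≤ n → ∀ (Ω : Type*) [MeasurableSpace Ω] (μ : Measure Ω) [IsProbabilityMeasure μ]
      (G : Ω → Matrix (Fin n) (Fin n) ℝ), IsGOE μ n G →
      μ {ω | ¬ ∀ x : Fin n → ℝ, IsOptimizer p (G ω) x →
        ‖x‖ ≤ K * (Real.log n) ^ C * (n : ℝ) ^ (-(1 / p))} ≤ ENNReal.ofReal ε := by
  have hp0 : 0 < p := by linarith
  have hp2 : 0 < p - 2 := by linarith
  refine ⟨2 / (p - 2), 2060 ^ (1 / (p - 2)) + 1, by positivity, ?_⟩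
  intro ε hε
  have h1 : ∀ᶠ n : ℕ in Filter.atTop, del n < ε := del_tendsto.eventually_lt_const hε
  have h2 : ∀ᶠ n : ℕ in Filter.atTop, 8 * (n : ℝ) ^ (2 / p) ≤ n := by
    have h3 : Filter.Tendsto (fun n : ℕ => (n : ℝ) ^ (1 - 2 / p)) Filter.atTop Filter.atTop := by
      have : 0 < 1 - 2 / p := by
        have : 2 / p < 1 := by
          rw [div_lt_one hp0]
          exact hp
        linarith
      exact (tendsto_rpow_atTop this).comp tendsto_natCast_atTop_atTop
    filter_upwards [h3.eventually_ge_atTop 8, Filter.eventually_ge_atTop 1] with n hn hn1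
    have hn0 : (0 : ℝ) < n := by
      have : 0 < n := by omega
      exact_mod_cast this
    have h4 : (n : ℝ) = (n : ℝ) ^ (1 - 2 / p) * (n : ℝ) ^ (2 / p) := by
      rw [← Real.rpow_add hn0]
      simp
    calc 8 * (n : ℝ) ^ (2 / p) ≤ (n : ℝ) ^ (1 - 2 / p) * (n : ℝ) ^ (2 / p) :=
          mul_le_mul_of_nonneg_right hn (by positivity)
      _ = n := h4.symm
  obtain ⟨N, hN⟩ := Filter.eventually_atTop.mp (h1.and h2)
  refine ⟨max N 3, ?_⟩
  intro n hn Ω _ μ _ G hG
  have hn3 : 3 ≤ n := le_trans (le_max_right _ _) hn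
  obtain ⟨h3, h4⟩ := hN n (le_trans (le_max_left _ _) hn)
  have hn3' : (3 : ℝ) ≤ n := by exact_mod_cast hn3
  have hn0 : (0 : ℝ) < n := by linarith
  have hℓ : 1 ≤ Real.log n := by
    rw [Real.le_log_iff_exp_le (by linarith)]
    have := Real.exp_one_lt_d9
    linarith
  set r : ℝ := (2060 ^ (1 / (p - 2)) + 1) * (Real.log n) ^ (2 / (p - 2)) *
    (n : ℝ) ^ (-(1 / p)) with hr
  have h5 : (2060 * (Real.log n) ^ 2) ^ (1 / (p - 2)) * (n : ℝ) ^ (-(1 / p)) < r := by
    rw [hr]
    apply mul_lt_mul_of_pos_right _ (Real.rpow_pos_of_pos hn0 _)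
    rw [Real.mul_rpow (by norm_num) (by positivity), ← Real.rpow_natCast (Real.log n) 2,
      ← Real.rpow_mul (by linarith)]
    have h6 : ((2 : ℕ) : ℝ) * (1 / (p - 2)) = 2 / (p - 2) := by
      push_cast
      ring
    rw [h6]
    apply mul_lt_mul_of_pos_right _ (Real.rpow_pos_of_pos (by linarith) _)
    linarith
  have hB := Bc_prob hp hn3 h4 h5
  set W : Ω → Tri n → ℝ := fun ω q => G ω q.1.1 q.1.2 with hW
  have hWm : ∀ q : Tri n, AEMeasurable (fun ω => G ω q.1.1 q.1.2) μ := by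
    intro q
    apply AEMeasurable.of_map_ne_zero
    rw [hG.law q.1.1 q.1.2 q.2]
    exact IsProbabilityMeasure.ne_zero _
  have hWm' : AEMeasurable W μ := aemeasurable_pi_lambda _ hWm
  have hlaw : μ.map W = Measure.pi (fun q : Tri n => gaussianReal 0 (vT n q)) := by
    have h6 := (iIndepFun_iff_map_fun_eq_pi_map hWm).mp hG.indep
    rw [hW, h6]
    congr 1
    funext q
    exact hG.law q.1.1 q.1.2 q.2
  have hsub : {ω | ¬ ∀ x : Fin n → ℝ, IsOptimizer p (G ω) x → ‖x‖ ≤ r} ⊆ W ⁻¹' (Bc p r n) := by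
    intro ω hω
    simp only [Set.mem_ofPred_eq, not_forall, not_le] at hω
    obtain ⟨x, ⟨hx1, hx2⟩, hx3⟩ := hω
    refine ⟨x, (ball_iff hp0 x).mp hx1, hx3.le, ?_⟩
    apply mx_le hp0
    intro y hy
    rw [form_eq (hG.symm ω), form_eq (hG.symm ω)]
    exact hx2 y ((ball_iff hp0 y).mpr hy)
  calc μ {ω | ¬ ∀ x : Fin n → ℝ, IsOptimizer p (G ω) x → ‖x‖ ≤ r}
      ≤ μ (W ⁻¹' (Bc p r n)) := measure_mono hsub
    _ = (μ.map W) (Bc p r n) :=
        (Measure.map_apply_of_aemeasurable hWm' (Bc_closed hp r).measurableSet).symm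
    _ = Measure.pi (fun q : Tri n => gaussianReal 0 (vT n q)) (Bc p r n) := by rw [hlaw]
    _ ≤ ENNReal.ofReal (del n) := hB
    _ ≤ ENNReal.ofReal ε := ENNReal.ofReal_le_ofReal h3.le

end Pool.Agent.Results.MP_98bed0_pr.Delocalization
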